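import Pool.Agent.X260.VA.Cont

/-!
# Virtually abelian images of amalgams over virtually cyclic subgroups
-/

set_option autoImplicit false

namespace Pool.Agent.X260.VA

section ev

variable {T M : Type*} [CommGroup M]

/-- evaluation -/
def evk (t : T) : (Mon.perm (T := T) (M := M)).ker →* M where
  toFun x := (x : Mon T M).f t
  map_one' := rfl
  map_mul' x y := by
    have hy : (y : Mon T M).p = 1 := y.2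
    show (x : Mon T M).f ((y : Mon T M).p t) * (y : Mon T M).f t = _
    rw [hy]
    rfl

end ev

/-- some finite index subgroup is cyclic -/
def VirtCyc (H : Type*) [Group H] : Prop :=
  ∃ C : Subgroup H, C.FiniteIndex ∧ IsCyclic C

/-- some finite index subgroup is abelian -/
def VirtAb (H : Type*) [Group H] : Prop :=
  ∃ A : Subgroup H, A.FiniteIndex ∧ ∀ x ∈ A, ∀ y ∈ A, x * y = y * x

section main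

universe u v w

variable {G₀ : Type u} {G₁ : Type v} {G₂ : Type w} [Group G₀] [Group G₁] [Group G₂]

theorem main_fin [Finite G₀] (f₁ : Group.FG G₁) (f₂ : Group.FG G₂) (a₁ : VirtAb G₁)
    (a₂ : VirtAb G₂) (i₁ : G₀ →* G₁) (i₂ : G₀ →* G₂) (j₁ : Function.Injective i₁)
    (j₂ : Function.Injective i₂) :
    ∃ (T : Type (max u v w)) (_ : Finite T) (M : Type) (_ : CommGroup M) (ν₁ : G₁ →* Mon T M)
      (ν₂ : G₂ →* Mon T M), (∀ g, ν₁ (i₁ g) = ν₂ (i₂ g)) ∧ Function.Injective ν₁ ∧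
      Function.Injective ν₂ ∧ IsCyclic ↥(ν₁.range ⊓ ν₂.range ⊓ Mon.perm.ker) := by
  obtain ⟨A₁, hA₁, hF₁, hc₁, n₁, K₁, φ₁, hK₁, -, hφ₁⟩ := va_data a₁
  obtain ⟨A₂, hA₂, hF₂, hc₂, n₂, K₂, φ₂, hK₂, -, hφ₂⟩ := va_data a₂
  have hN₁ := pw_normal A₁ hc₁ (K₁ * 1)
  have hN₂ := pw_normal A₂ hc₂ (K₂ * 1)
  have hI₁ := pw_fi A₁ hc₁ (K₁ * 1) (Nat.mul_pos hK₁ one_pos)
  have hI₂ := pw_fi A₂ hc₂ (K₂ * 1) (Nat.mul_pos hK₂ one_pos)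
  have he₁ := pe_inj A₁ hc₁ φ₁ hK₁ hφ₁ (j := 1) one_pos
  have he₂ := pe_inj A₂ hc₂ φ₂ hK₂ hφ₂ (j := 1) one_pos
  generalize pe A₁ hc₁ φ₁ 1 = e₁ at he₁
  generalize pe A₂ hc₂ φ₂ 1 = e₂ at he₂
  generalize pw A₁ hc₁ (K₁ * 1) = N₁ at *
  generalize pw A₂ hc₂ (K₂ * 1) = N₂ at *
  have h₁ : ∀ g, i₁ g ∈ N₁ ↔ g ∈ (⊥ : Subgroup G₀) := by
    intro g
    rw [Subgroup.mem_bot]
    constructor
    · intro h
      have h1 : (⟨i₁ g, h⟩ : N₁) ^ (orderOf g) = 1 := Subtype.ext (by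
        show i₁ g ^ orderOf g = 1
        rw [← map_pow, pow_orderOf_eq_one, map_one])
      have h2 := tf_of_inj e₁ he₁ (orderOf_pos g) _ h1
      have h3 : i₁ g = 1 := congrArg Subtype.val h2
      exact j₁ (by rw [h3, map_one])
    · rintro rfl
      rw [map_one]
      exact N₁.one_mem
  have h₂ : ∀ g, i₂ g ∈ N₂ ↔ g ∈ (⊥ : Subgroup G₀) := by
    intro g
    rw [Subgroup.mem_bot]
    constructor
    · intro h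
      have h1 : (⟨i₂ g, h⟩ : N₂) ^ (orderOf g) = 1 := Subtype.ext (by
        show i₂ g ^ orderOf g = 1
        rw [← map_pow, pow_orderOf_eq_one, map_one])
      have h2 := tf_of_inj e₂ he₂ (orderOf_pos g) _ h1
      have h3 : i₂ g = 1 := congrArg Subtype.val h2
      exact j₂ (by rw [h3, map_one])
    · rintro rfl
      rw [map_one]
      exact N₂.one_mem
  have hT : Finite (TT i₁ i₂ (⊥ : Subgroup G₀) N₁ N₂) := by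
    have := orb_fin i₁ N₁
    have := orb_fin i₂ N₂
    have := quo_fin i₁ N₁ ⊥ h₁
    infer_instance
  let A : Orb i₂ N₂ → N₁ →* Multiplicative (Fin n₁ → ℤ) × Multiplicative (Fin n₂ → ℤ) :=
    fun _ => (MonoidHom.inl _ _).comp e₁
  let B : Orb i₁ N₁ → N₂ →* Multiplicative (Fin n₁ → ℤ) × Multiplicative (Fin n₂ → ℤ) :=
    fun _ => (MonoidHom.inr _ _).comp e₂
  let t₀ : TT i₁ i₂ (⊥ : Subgroup G₀) N₁ N₂ :=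
    (QuotientGroup.mk 1, DoubleCoset.mk i₁.range N₁ 1, DoubleCoset.mk i₂.range N₂ 1)
  have inj₁ : Function.Injective (nu₁ i₁ i₂ ⊥ N₁ N₂ h₁ A) := by
    rw [injective_iff_map_eq_one]
    intro g hg
    have hm : g ∈ N₁ := nu₁_mem i₁ i₂ ⊥ N₁ N₂ h₁ A g (by rw [hg]; rfl)
    have h3 := nu₁_f i₁ i₂ ⊥ N₁ N₂ h₁ A ⟨g, hm⟩ t₀.1 t₀.2.1 t₀.2.2
    have h3 : (nu₁ i₁ i₂ ⊥ N₁ N₂ h₁ A g).f t₀ =
      (e₁ (cj N₁ (sec i₁ N₁ ⊥ (t₀.1, t₀.2.1)) ⟨g, hm⟩), 1) := h3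
    rw [hg] at h3
    have h4 : (1 : Multiplicative (Fin n₁ → ℤ)) =
      e₁ (cj N₁ (sec i₁ N₁ ⊥ (t₀.1, t₀.2.1)) ⟨g, hm⟩) := congrArg Prod.fst h3
    have h5 := cj_inj _ _ _ ((injective_iff_map_eq_one e₁).1 he₁ _ h4.symm)
    exact congrArg Subtype.val h5
  have inj₂ : Function.Injective (nu₂ i₁ i₂ ⊥ N₁ N₂ h₂ B) := by
    rw [injective_iff_map_eq_one]
    intro g hg
    have hm : g ∈ N₂ := nu₂_mem i₁ i₂ ⊥ N₁ N₂ h₂ B g (by rw [hg]; rfl)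
    have h3 := nu₂_f i₁ i₂ ⊥ N₁ N₂ h₂ B ⟨g, hm⟩ t₀.1 t₀.2.1 t₀.2.2
    have h3 : (nu₂ i₁ i₂ ⊥ N₁ N₂ h₂ B g).f t₀ =
      (1, e₂ (cj N₂ (sec i₂ N₂ ⊥ (t₀.1, t₀.2.2)) ⟨g, hm⟩)) := h3
    rw [hg] at h3
    have h4 : (1 : Multiplicative (Fin n₂ → ℤ)) =
      e₂ (cj N₂ (sec i₂ N₂ ⊥ (t₀.1, t₀.2.2)) ⟨g, hm⟩) := congrArg Prod.snd h3
    have h5 := cj_inj _ _ _ ((injective_iff_map_eq_one e₂).1 he₂ _ h4.symm)
    exact congrArg Subtype.val h5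
  refine ⟨_, hT, _, inferInstance, nu₁ i₁ i₂ ⊥ N₁ N₂ h₁ A, nu₂ i₁ i₂ ⊥ N₁ N₂ h₂ B, ?_, inj₁,
    inj₂, ?_⟩
  · refine nu_agree i₁ i₂ ⊥ N₁ N₂ h₁ h₂ A B ?_
    intro n hn y₁ y₂
    rw [Subgroup.mem_bot] at hn
    subst hn
    have e1 : (⟨i₁ 1, (h₁ 1).2 rfl⟩ : N₁) = 1 := Subtype.ext (map_one i₁)
    have e2 : (⟨i₂ 1, (h₂ 1).2 rfl⟩ : N₂) = 1 := Subtype.ext (map_one i₂)
    rw [e1, e2, map_one, map_one, map_one, map_one]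
  · have hs : Subsingleton ↥((nu₁ i₁ i₂ ⊥ N₁ N₂ h₁ A).range ⊓ (nu₂ i₁ i₂ ⊥ N₁ N₂ h₂ B).range ⊓
        Mon.perm.ker) := by
      have key : ∀ x : ↥((nu₁ i₁ i₂ ⊥ N₁ N₂ h₁ A).range ⊓ (nu₂ i₁ i₂ ⊥ N₁ N₂ h₂ B).range ⊓
          Mon.perm.ker), x = 1 := by
        rintro ⟨x, ⟨⟨g₁, rfl⟩, ⟨g₂, hg₂⟩⟩, hx⟩
        have hx : (nu₁ i₁ i₂ ⊥ N₁ N₂ h₁ A g₁).p = 1 := hx
        have hm₁ : g₁ ∈ N₁ := nu₁_mem i₁ i₂ ⊥ N₁ N₂ h₁ A g₁ hx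
        have hm₂ : g₂ ∈ N₂ := nu₂_mem i₁ i₂ ⊥ N₁ N₂ h₂ B g₂ (by rw [hg₂]; exact hx)
        have h3 := nu₁_f i₁ i₂ ⊥ N₁ N₂ h₁ A ⟨g₁, hm₁⟩ t₀.1 t₀.2.1 t₀.2.2
        have h3 : (nu₁ i₁ i₂ ⊥ N₁ N₂ h₁ A g₁).f t₀ =
          (e₁ (cj N₁ (sec i₁ N₁ ⊥ (t₀.1, t₀.2.1)) ⟨g₁, hm₁⟩), 1) := h3
        have h4 := nu₂_f i₁ i₂ ⊥ N₁ N₂ h₂ B ⟨g₂, hm₂⟩ t₀.1 t₀.2.1 t₀.2.2
        have h4 : (nu₂ i₁ i₂ ⊥ N₁ N₂ h₂ B g₂).f t₀ =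
          (1, e₂ (cj N₂ (sec i₂ N₂ ⊥ (t₀.1, t₀.2.2)) ⟨g₂, hm₂⟩)) := h4
        rw [hg₂, h3] at h4
        have h5 : e₁ (cj N₁ (sec i₁ N₁ ⊥ (t₀.1, t₀.2.1)) ⟨g₁, hm₁⟩) = 1 := congrArg Prod.fst h4
        have h6 := cj_inj _ _ _ ((injective_iff_map_eq_one e₁).1 he₁ _ h5)
        have h7 : g₁ = 1 := congrArg Subtype.val h6
        apply Subtype.ext
        show nu₁ i₁ i₂ ⊥ N₁ N₂ h₁ A g₁ = 1
        rw [h7, map_one]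
      exact ⟨fun x y => by rw [key x, key y]⟩
    exact isCyclic_of_subsingleton

theorem main_inf (f₁ : Group.FG G₁) (f₂ : Group.FG G₂) (a₁ : VirtAb G₁)
    (a₂ : VirtAb G₂) (i₁ : G₀ →* G₁) (i₂ : G₀ →* G₂) (j₁ : Function.Injective i₁)
    (j₂ : Function.Injective i₂) (hc : VirtCyc G₀) (hinf : Infinite G₀) :
    ∃ (T : Type (max u v w)) (_ : Finite T) (M : Type) (_ : CommGroup M) (ν₁ : G₁ →* Mon T M)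
      (ν₂ : G₂ →* Mon T M), (∀ g, ν₁ (i₁ g) = ν₂ (i₂ g)) ∧ Function.Injective ν₁ ∧
      Function.Injective ν₂ ∧ IsCyclic ↥(ν₁.range ⊓ ν₂.range ⊓ Mon.perm.ker) := by
  obtain ⟨A₁, hA₁, hF₁, hc₁, n₁, K₁, φ₁, hK₁, hs₁, hφ₁⟩ := va_data a₁
  obtain ⟨A₂, hA₂, hF₂, hc₂, n₂, K₂, φ₂, hK₂, hs₂, hφ₂⟩ := va_data a₂
  -- the element `c`
  obtain ⟨c, hc1, hcm₁, hcm₂, hcz⟩ : ∃ c : G₀, c ≠ 1 ∧ i₁ c ∈ pw A₁ hc₁ K₁ ∧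
      i₂ c ∈ pw A₂ hc₂ K₂ ∧ ∀ g : G₀, ∃ m : ℕ, 0 < m ∧ ∃ l : ℤ, g ^ m = c ^ l := by
    obtain ⟨C, hCf, hCc⟩ := hc
    obtain ⟨⟨z, hz⟩, hzz⟩ := hCc.exists_generator
    have hpow : ∀ g : G₀, ∃ m : ℕ, 0 < m ∧ ∃ l : ℤ, g ^ m = z ^ l := by
      intro g
      obtain ⟨m, hm, -, hgm⟩ := Subgroup.exists_pow_mem_of_index_ne_zero hCf.index_ne_zero g
      obtain ⟨l, hl⟩ := Subgroup.mem_zpowers_iff.1 (hzz ⟨g ^ m, hgm⟩)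
      exact ⟨m, hm, l, (congrArg Subtype.val hl).symm⟩
    have g₁ := pw_fi A₁ hc₁ K₁ hK₁
    have g₂ := pw_fi A₂ hc₂ K₂ hK₂
    obtain ⟨m₁, hm₁, -, hz₁⟩ := Subgroup.exists_pow_mem_of_index_ne_zero g₁.index_ne_zero (i₁ z)
    obtain ⟨m₂, hm₂, -, hz₂⟩ := Subgroup.exists_pow_mem_of_index_ne_zero g₂.index_ne_zero (i₂ z)
    refine ⟨z ^ (m₁ * m₂), ?_, ?_, ?_, ?_⟩
    · intro h0
      have hzf' : IsOfFinOrder (⟨z, hz⟩ : C) :=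
        isOfFinOrder_iff_pow_eq_one.2 ⟨_, Nat.mul_pos hm₁ hm₂, Subtype.ext h0⟩
      have hCfin : Finite C := by
        have h1 : Subgroup.zpowers (⟨z, hz⟩ : C) = ⊤ := by
          rw [eq_top_iff]
          intro x _
          exact hzz x
        have h2 : Finite (Subgroup.zpowers (⟨z, hz⟩ : C)) := (finite_zpowers.2 hzf').to_subtype
        rw [h1] at h2
        exact Finite.of_equiv _ Subgroup.topEquiv.toEquiv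
      have : Finite G₀ := by
        have h1 : Finite (G₀ ⧸ C) := inferInstance
        exact Finite.of_equiv _ (Subgroup.groupEquivQuotientProdSubgroup (s := C)).symm
      exact not_finite G₀
    · rw [pow_mul, map_pow, map_pow]
      exact Subgroup.pow_mem _ hz₁ _
    · rw [mul_comm m₁, pow_mul, map_pow, map_pow]
      exact Subgroup.pow_mem _ hz₂ _
    · intro g
      obtain ⟨m, hm, l, hl⟩ := hpow g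
      refine ⟨m * (m₁ * m₂), Nat.mul_pos hm (Nat.mul_pos hm₁ hm₂), l, ?_⟩
      rw [pow_mul, hl, ← zpow_natCast, ← zpow_mul, mul_comm l, zpow_mul, zpow_natCast]
  obtain ⟨N₁, hN₁, hI₁, hcN₁, e₁, he₁, hr₁⟩ := cont A₁ hc₁ φ₁ hK₁ hs₁ hφ₁ (i₁ c) hcm₁
    (fun h => hc1 (j₁ (by rw [h, map_one])))
  obtain ⟨N₂, hN₂, hI₂, hcN₂, e₂, he₂, hr₂⟩ := cont A₂ hc₂ φ₂ hK₂ hs₂ hφ₂ (i₂ c) hcm₂
    (fun h => hc1 (j₂ (by rw [h, map_one])))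
  have h₁ : ∀ g, i₁ g ∈ N₁ ↔ g ∈ Subgroup.zpowers c := by
    intro g
    constructor
    · intro h
      obtain ⟨m, hm, l, hl⟩ := hcz g
      obtain ⟨j, hj⟩ := hr₁ (i₁ g) h m hm l (by rw [← map_pow, hl, map_zpow])
      exact ⟨j, j₁ (by rw [hj]; exact map_zpow i₁ c j)⟩
    · rintro ⟨j, rfl⟩
      have : i₁ (c ^ j) ∈ N₁ := by
        rw [map_zpow]
        exact N₁.zpow_mem hcN₁ j
      exact this
  have h₂ : ∀ g, i₂ g ∈ N₂ ↔ g ∈ Subgroup.zpowers c := by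
    intro g
    constructor
    · intro h
      obtain ⟨m, hm, l, hl⟩ := hcz g
      obtain ⟨j, hj⟩ := hr₂ (i₂ g) h m hm l (by rw [← map_pow, hl, map_zpow])
      exact ⟨j, j₂ (by rw [hj]; exact map_zpow i₂ c j)⟩
    · rintro ⟨j, rfl⟩
      have : i₂ (c ^ j) ∈ N₂ := by
        rw [map_zpow]
        exact N₂.zpow_mem hcN₂ j
      exact this
  have hT : Finite (TT i₁ i₂ (Subgroup.zpowers c) N₁ N₂) := by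
    have := orb_fin i₁ N₁
    have := orb_fin i₂ N₂
    have := quo_fin i₁ N₁ _ h₁
    infer_instance
  have hcc₁ : (⟨i₁ c, hcN₁⟩ : N₁) ≠ 1 := fun h => hc1 (j₁ (by
    rw [map_one]; exact congrArg Subtype.val h))
  have hcc₂ : (⟨i₂ c, hcN₂⟩ : N₂) ≠ 1 := fun h => hc1 (j₂ (by
    rw [map_one]; exact congrArg Subtype.val h))
  have hw₁ : ∀ y₁ : Orb i₁ N₁, e₁ (cj N₁ y₁.out ⟨i₁ c, hcN₁⟩) ≠ 1 := fun y₁ h =>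
    hcc₁ (cj_inj _ _ _ ((injective_iff_map_eq_one e₁).1 he₁ _ h))
  have hw₂ : ∀ y₂ : Orb i₂ N₂, e₂ (cj N₂ y₂.out ⟨i₂ c, hcN₂⟩) ≠ 1 := fun y₂ h =>
    hcc₂ (cj_inj _ _ _ ((injective_iff_map_eq_one e₂).1 he₂ _ h))
  let A : Orb i₂ N₂ → N₁ →* Multiplicative (Fin n₁ × Fin n₂ → ℤ) :=
    fun y₂ => (ten₁ (e₂ (cj N₂ y₂.out ⟨i₂ c, hcN₂⟩)).toAdd).comp e₁
  let B : Orb i₁ N₁ → N₂ →* Multiplicative (Fin n₁ × Fin n₂ → ℤ) :=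
    fun y₁ => (ten₂ (e₁ (cj N₁ y₁.out ⟨i₁ c, hcN₁⟩)).toAdd).comp e₂
  let t₀ : TT i₁ i₂ (Subgroup.zpowers c) N₁ N₂ :=
    (QuotientGroup.mk 1, DoubleCoset.mk i₁.range N₁ 1, DoubleCoset.mk i₂.range N₂ 1)
  have f₁ : ∀ (n : N₁) (a b), ((nu₁ i₁ i₂ (Subgroup.zpowers c) N₁ N₂ h₁ A n).f t₀).toAdd (a, b) =
      (e₁ (cj N₁ (sec i₁ N₁ (Subgroup.zpowers c) (t₀.1, t₀.2.1)) n)).toAdd a *
        (e₂ (cj N₂ t₀.2.2.out ⟨i₂ c, hcN₂⟩)).toAdd b := by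
    intro n a b
    rw [show t₀ = (t₀.1, t₀.2.1, t₀.2.2) from rfl, nu₁_f]
    rfl
  have f₂ : ∀ (n : N₂) (a b), ((nu₂ i₁ i₂ (Subgroup.zpowers c) N₁ N₂ h₂ B n).f t₀).toAdd (a, b) =
      (e₁ (cj N₁ t₀.2.1.out ⟨i₁ c, hcN₁⟩)).toAdd a *
      (e₂ (cj N₂ (sec i₂ N₂ (Subgroup.zpowers c) (t₀.1, t₀.2.2)) n)).toAdd b := by
    intro n a b
    rw [show t₀ = (t₀.1, t₀.2.1, t₀.2.2) from rfl, nu₂_f]
    rfl
  obtain ⟨b₀, hb₀⟩ := ne_coord _ (hw₂ t₀.2.2)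
  obtain ⟨a₀, ha₀⟩ := ne_coord _ (hw₁ t₀.2.1)
  -- vanishing of the first coordinates
  have z₁ : ∀ n : N₁, (∀ a, ((nu₁ i₁ i₂ (Subgroup.zpowers c) N₁ N₂ h₁ A n).f t₀).toAdd (a, b₀) = 0) →
      n = 1 := by
    intro n hn
    have h1 : (e₁ (cj N₁ (sec i₁ N₁ (Subgroup.zpowers c) (t₀.1, t₀.2.1)) n)) = 1 := by
      have : (e₁ (cj N₁ (sec i₁ N₁ (Subgroup.zpowers c) (t₀.1, t₀.2.1)) n)).toAdd = 0 := by
        funext a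
        have h2 := hn a
        rw [f₁] at h2
        exact (mul_eq_zero.1 h2).resolve_right hb₀
      exact this
    exact cj_inj _ _ _ ((injective_iff_map_eq_one e₁).1 he₁ _ h1)
  have z₂ : ∀ n : N₂, (∀ b, ((nu₂ i₁ i₂ (Subgroup.zpowers c) N₁ N₂ h₂ B n).f t₀).toAdd (a₀, b) = 0) →
      n = 1 := by
    intro n hn
    have h1 : (e₂ (cj N₂ (sec i₂ N₂ (Subgroup.zpowers c) (t₀.1, t₀.2.2)) n)) = 1 := by
      have : (e₂ (cj N₂ (sec i₂ N₂ (Subgroup.zpowers c) (t₀.1, t₀.2.2)) n)).toAdd = 0 := by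
        funext b
        have h2 := hn b
        rw [f₂] at h2
        exact (mul_eq_zero.1 h2).resolve_left ha₀
      exact this
    exact cj_inj _ _ _ ((injective_iff_map_eq_one e₂).1 he₂ _ h1)
  have inj₁ : Function.Injective (nu₁ i₁ i₂ (Subgroup.zpowers c) N₁ N₂ h₁ A) := by
    rw [injective_iff_map_eq_one]
    intro g hg
    have hm : g ∈ N₁ := nu₁_mem i₁ i₂ _ N₁ N₂ h₁ A g (by rw [hg]; rfl)
    have h5 := z₁ ⟨g, hm⟩ (fun a => by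
      show ((nu₁ i₁ i₂ (Subgroup.zpowers c) N₁ N₂ h₁ A g).f t₀).toAdd (a, b₀) = 0
      rw [hg]
      rfl)
    exact congrArg Subtype.val h5
  have inj₂ : Function.Injective (nu₂ i₁ i₂ (Subgroup.zpowers c) N₁ N₂ h₂ B) := by
    rw [injective_iff_map_eq_one]
    intro g hg
    have hm : g ∈ N₂ := nu₂_mem i₁ i₂ _ N₁ N₂ h₂ B g (by rw [hg]; rfl)
    have h5 := z₂ ⟨g, hm⟩ (fun a => by
      show ((nu₂ i₁ i₂ (Subgroup.zpowers c) N₁ N₂ h₂ B g).f t₀).toAdd (a₀, a) = 0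
      rw [hg]
      rfl)
    exact congrArg Subtype.val h5
  refine ⟨_, hT, _, inferInstance, nu₁ i₁ i₂ _ N₁ N₂ h₁ A, nu₂ i₁ i₂ _ N₁ N₂ h₂ B, ?_, inj₁,
    inj₂, ?_⟩
  · refine nu_agree i₁ i₂ _ N₁ N₂ h₁ h₂ A B ?_
    rintro n ⟨j, rfl⟩ y₁ y₂
    have e1 : (⟨i₁ (c ^ j), (h₁ _).2 ⟨j, rfl⟩⟩ : N₁) = ⟨i₁ c, hcN₁⟩ ^ j :=
      Subtype.ext (map_zpow i₁ c j)
    have e2 : (⟨i₂ (c ^ j), (h₂ _).2 ⟨j, rfl⟩⟩ : N₂) = ⟨i₂ c, hcN₂⟩ ^ j :=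
      Subtype.ext (map_zpow i₂ c j)
    show A y₂ (cj N₁ y₁.out ⟨i₁ (c ^ j), _⟩) = B y₁ (cj N₂ y₂.out ⟨i₂ (c ^ j), _⟩)
    rw [e1, e2, map_zpow, map_zpow, map_zpow, map_zpow]
    rfl
  · let D := (nu₁ i₁ i₂ (Subgroup.zpowers c) N₁ N₂ h₁ A).range ⊓
      (nu₂ i₁ i₂ (Subgroup.zpowers c) N₁ N₂ h₂ B).range ⊓ Mon.perm.ker
    let ψ : D →* Multiplicative ℤ :=
      (AddMonoidHom.toMultiplicative (Pi.evalAddMonoidHom (fun _ : Fin n₁ × Fin n₂ => ℤ)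
        (a₀, b₀))).comp ((evk t₀).comp (Subgroup.inclusion (inf_le_right : D ≤ Mon.perm.ker)))
    refine isCyclic_of_injective ψ ?_
    rw [injective_iff_map_eq_one]
    rintro ⟨x, ⟨⟨g₁, rfl⟩, ⟨g₂, hg₂⟩⟩, hx⟩ hψ
    have hx : (nu₁ i₁ i₂ (Subgroup.zpowers c) N₁ N₂ h₁ A g₁).p = 1 := hx
    have hm₁ : g₁ ∈ N₁ := nu₁_mem i₁ i₂ _ N₁ N₂ h₁ A g₁ hx
    have hm₂ : g₂ ∈ N₂ := nu₂_mem i₁ i₂ _ N₁ N₂ h₂ B g₂ (by rw [hg₂]; exact hx)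
    have hψ : ((nu₁ i₁ i₂ (Subgroup.zpowers c) N₁ N₂ h₁ A g₁).f t₀).toAdd (a₀, b₀) = 0 := hψ
    have q1 : ∀ a b, ((nu₁ i₁ i₂ (Subgroup.zpowers c) N₁ N₂ h₁ A g₁).f t₀).toAdd (a, b) =
        (e₁ (cj N₁ t₀.2.1.out ⟨i₁ c, hcN₁⟩)).toAdd a *
      (e₂ (cj N₂ (sec i₂ N₂ (Subgroup.zpowers c) (t₀.1, t₀.2.2)) ⟨g₂, hm₂⟩)).toAdd b := by
      intro a b
      rw [← hg₂]
      exact f₂ ⟨g₂, hm₂⟩ a b
    have q2 : (e₂ (cj N₂ (sec i₂ N₂ (Subgroup.zpowers c) (t₀.1, t₀.2.2)) ⟨g₂, hm₂⟩)).toAdd b₀ = 0 := by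
      rw [q1] at hψ
      exact (mul_eq_zero.1 hψ).resolve_left ha₀
    have q3 := z₁ ⟨g₁, hm₁⟩ (fun a => by
      show ((nu₁ i₁ i₂ (Subgroup.zpowers c) N₁ N₂ h₁ A g₁).f t₀).toAdd (a, b₀) = 0
      rw [q1, q2, mul_zero])
    have q4 : g₁ = 1 := congrArg Subtype.val q3
    apply Subtype.ext
    show nu₁ i₁ i₂ (Subgroup.zpowers c) N₁ N₂ h₁ A g₁ = 1
    rw [q4, map_one]

theorem main (f₁ : Group.FG G₁) (f₂ : Group.FG G₂) (a₁ : VirtAb G₁)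
    (a₂ : VirtAb G₂) (i₁ : G₀ →* G₁) (i₂ : G₀ →* G₂) (j₁ : Function.Injective i₁)
    (j₂ : Function.Injective i₂) (hc : VirtCyc G₀) :
    ∃ (T : Type (max u v w)) (_ : Finite T) (M : Type) (_ : CommGroup M) (ν₁ : G₁ →* Mon T M)
      (ν₂ : G₂ →* Mon T M), (∀ g, ν₁ (i₁ g) = ν₂ (i₂ g)) ∧ Function.Injective ν₁ ∧
      Function.Injective ν₂ ∧ IsCyclic ↥(ν₁.range ⊓ ν₂.range ⊓ Mon.perm.ker) := by
  rcases finite_or_infinite G₀ with h | h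
  · exact main_fin f₁ f₂ a₁ a₂ i₁ i₂ j₁ j₂
  · exact main_inf f₁ f₂ a₁ a₂ i₁ i₂ j₁ j₂ hc h

end main

end Pool.Agent.X260.VA
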