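import Pool.Agent.X260.VA.Mon

/-!
# Two induced representations which agree on a common subgroup
-/

set_option autoImplicit false
set_option linter.unusedSectionVars false

namespace Pool.Agent.X260.VA

section cj

variable {G : Type*} [Group G] (N : Subgroup G) [hN : N.Normal]

/-- conjugation of a normal subgroup -/
def cj (a : G) : N →* N where
  toFun n := ⟨a⁻¹ * n * a, by
    have := hN.conj_mem _ n.2 a⁻¹
    rwa [inv_inv] at this⟩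
  map_one' := Subtype.ext (by simp)
  map_mul' x y := Subtype.ext (by simp [mul_assoc])

theorem cj_coe (a : G) (n : N) : (cj N a n : G) = a⁻¹ * n * a := rfl

theorem cj_inj (a : G) (n : N) (h : cj N a n = 1) : n = 1 := by
  have h1 : a⁻¹ * (n : G) * a = 1 := congrArg Subtype.val h
  apply Subtype.ext
  have : (n : G) = a * (a⁻¹ * (n : G) * a) * a⁻¹ := by group
  rw [this, h1]
  simp

end cj

section co2

variable {G₀ G : Type*} [Group G₀] [Group G] (i : G₀ →* G) (N : Subgroup G) [hN : N.Normal]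
  (N₀ : Subgroup G₀)

/-- double cosets -/
abbrev Orb (i : G₀ →* G) (N : Subgroup G) : Type _ :=
  DoubleCoset.Quotient (i.range : Set G) (N : Set G)

/-- the section -/
noncomputable def sec (x : (G₀ ⧸ N₀) × Orb i N) : G := i x.1.out * x.2.out

theorem sec_bij (h : ∀ g, i g ∈ N ↔ g ∈ N₀) :
    Function.Bijective (fun p : ((G₀ ⧸ N₀) × Orb i N) × N => sec i N N₀ p.1 * (p.2 : G)) := by
  constructor
  · rintro ⟨⟨q, y⟩, n⟩ ⟨⟨q', y'⟩, n'⟩ e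
    have e : i q.out * y.out * (n : G) = i q'.out * y'.out * (n' : G) := e
    have hy : y = y' := by
      rw [← DoubleCoset.out_eq' i.range N y, ← DoubleCoset.out_eq' i.range N y', DoubleCoset.eq]
      refine ⟨(i q'.out)⁻¹ * i q.out, ?_, (n : G) * (n' : G)⁻¹, ?_, ?_⟩
      · exact ⟨(q'.out)⁻¹ * q.out, by simp⟩
      · exact N.mul_mem n.2 (N.inv_mem n'.2)
      · have : (i q'.out)⁻¹ * i q.out * y.out * ((n : G) * (n' : G)⁻¹) =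
          (i q'.out)⁻¹ * (i q.out * y.out * (n : G)) * (n' : G)⁻¹ := by group
        rw [this, e]
        group
    subst hy
    have h1 : i ((q'.out)⁻¹ * q.out) ∈ N := by
      have : i ((q'.out)⁻¹ * q.out) = y.out * ((n' : G) * (n : G)⁻¹) * (y.out)⁻¹ := by
        rw [map_mul, map_inv]
        have h2 : i q.out = i q'.out * y.out * (n' : G) * (n : G)⁻¹ * (y.out)⁻¹ := by
          rw [← e]
          group
        rw [h2]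
        group
      rw [this]
      exact hN.conj_mem _ (N.mul_mem n'.2 (N.inv_mem n.2)) _
    rw [h] at h1
    have hq : q = q' := by
      have h3 := (QuotientGroup.eq (s := N₀)).2 h1
      rw [QuotientGroup.out_eq', QuotientGroup.out_eq'] at h3
      exact h3.symm
    subst hq
    have : (n : G) = n' := mul_left_cancel e
    have : n = n' := Subtype.ext this
    rw [this]
  · intro g
    obtain ⟨a, k, ha, hk, hg⟩ := DoubleCoset.mk_out_eq_mul i.range N g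
    obtain ⟨a, rfl⟩ := ha
    obtain ⟨n₀, hn₀⟩ := QuotientGroup.mk_out_eq_mul N₀ a⁻¹
    set y : Orb i N := DoubleCoset.mk i.range N g with hy
    refine ⟨⟨⟨QuotientGroup.mk a⁻¹, y⟩,
      ⟨((y.out)⁻¹ * (i (n₀ : G₀))⁻¹ * y.out) * k⁻¹, ?_⟩⟩, ?_⟩
    · refine N.mul_mem ?_ (N.inv_mem hk)
      have h1 := hN.conj_mem _ (N.inv_mem ((h n₀).2 n₀.2)) (y.out)⁻¹
      rwa [inv_inv] at h1
    · show i (QuotientGroup.mk a⁻¹ : G₀ ⧸ N₀).out * y.out *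
        (((y.out)⁻¹ * (i (n₀ : G₀))⁻¹ * y.out) * k⁻¹) = g
      rw [hn₀, map_mul, map_inv, hg]
      group

theorem sec_act (h : ∀ g, i g ∈ N ↔ g ∈ N₀) (g : G₀) (q : G₀ ⧸ N₀) (y : Orb i N)
    (q' : G₀ ⧸ N₀) (n₀ : G₀) (hn₀ : n₀ ∈ N₀) (hg : g * q.out = q'.out * n₀) :
    ac N (sec i N N₀) (sec_bij i N N₀ h) (i g) (q, y) = (q', y) ∧
      cc N (sec i N N₀) (sec_bij i N N₀ h) (i g) (q, y) =
        cj N y.out ⟨i n₀, (h n₀).2 hn₀⟩ := by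
  refine ac_cc_uniq N (sec i N N₀) (sec_bij i N N₀ h) (i g) (q, y) (q', y) _ ?_
  show i g * (i q.out * y.out) = i q'.out * y.out * ((y.out)⁻¹ * i n₀ * y.out)
  rw [← mul_assoc, ← map_mul, hg, map_mul]
  group

end co2

section two

variable {G₀ G₁ G₂ M : Type*} [Group G₀] [Group G₁] [Group G₂] [CommGroup M]
  (i₁ : G₀ →* G₁) (i₂ : G₀ →* G₂) (N₀ : Subgroup G₀) (N₁ : Subgroup G₁) (N₂ : Subgroup G₂)
  [hN₁ : N₁.Normal] [hN₂ : N₂.Normal]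
  (h₁ : ∀ g, i₁ g ∈ N₁ ↔ g ∈ N₀) (h₂ : ∀ g, i₂ g ∈ N₂ ↔ g ∈ N₀)

/-- the index set -/
abbrev TT : Type _ := (G₀ ⧸ N₀) × Orb i₁ N₁ × Orb i₂ N₂

/-- coordinates for the first group -/
def ε₁ : TT i₁ i₂ N₀ N₁ N₂ ≃ ((G₀ ⧸ N₀) × Orb i₁ N₁) × Orb i₂ N₂ where
  toFun t := ((t.1, t.2.1), t.2.2)
  invFun t := (t.1.1, t.1.2, t.2)
  left_inv _ := rfl
  right_inv _ := rfl

/-- coordinates for the second group -/
def ε₂ : TT i₁ i₂ N₀ N₁ N₂ ≃ ((G₀ ⧸ N₀) × Orb i₂ N₂) × Orb i₁ N₁ where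
  toFun t := ((t.1, t.2.2), t.2.1)
  invFun t := (t.1.1, t.2, t.1.2)
  left_inv _ := rfl
  right_inv _ := rfl

variable (A : Orb i₂ N₂ → N₁ →* M) (B : Orb i₁ N₁ → N₂ →* M)

/-- the first representation -/
noncomputable def nu₁ : G₁ →* Mon (TT i₁ i₂ N₀ N₁ N₂) M :=
  ind N₁ (sec i₁ N₁ N₀) (sec_bij i₁ N₁ N₀ h₁) (ε₁ i₁ i₂ N₀ N₁ N₂) A

/-- the second representation -/
noncomputable def nu₂ : G₂ →* Mon (TT i₁ i₂ N₀ N₁ N₂) M :=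
  ind N₂ (sec i₂ N₂ N₀) (sec_bij i₂ N₂ N₀ h₂) (ε₂ i₁ i₂ N₀ N₁ N₂) B

theorem nu_agree
    (compat : ∀ (n : G₀) (hn : n ∈ N₀) (y₁ : Orb i₁ N₁) (y₂ : Orb i₂ N₂),
      A y₂ (cj N₁ y₁.out ⟨i₁ n, (h₁ n).2 hn⟩) = B y₁ (cj N₂ y₂.out ⟨i₂ n, (h₂ n).2 hn⟩))
    (g : G₀) : nu₁ i₁ i₂ N₀ N₁ N₂ h₁ A (i₁ g) = nu₂ i₁ i₂ N₀ N₁ N₂ h₂ B (i₂ g) := by
  have key : ∀ t : TT i₁ i₂ N₀ N₁ N₂,
      (nu₁ i₁ i₂ N₀ N₁ N₂ h₁ A (i₁ g)).p t = (nu₂ i₁ i₂ N₀ N₁ N₂ h₂ B (i₂ g)).p t ∧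
      (nu₁ i₁ i₂ N₀ N₁ N₂ h₁ A (i₁ g)).f t = (nu₂ i₁ i₂ N₀ N₁ N₂ h₂ B (i₂ g)).f t := by
    rintro ⟨q, y₁, y₂⟩
    set q' : G₀ ⧸ N₀ := QuotientGroup.mk (g * q.out) with hq'
    have hn : (q'.out)⁻¹ * (g * q.out) ∈ N₀ := by
      rw [← QuotientGroup.eq, QuotientGroup.out_eq']
    have e1 := sec_act i₁ N₁ N₀ h₁ g q y₁ q' _ hn (by group)
    have e2 := sec_act i₂ N₂ N₀ h₂ g q y₂ q' _ hn (by group)
    constructor
    · show (ε₁ i₁ i₂ N₀ N₁ N₂).symm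
        (ac N₁ (sec i₁ N₁ N₀) (sec_bij i₁ N₁ N₀ h₁) (i₁ g) (q, y₁), y₂) =
        (ε₂ i₁ i₂ N₀ N₁ N₂).symm
        (ac N₂ (sec i₂ N₂ N₀) (sec_bij i₂ N₂ N₀ h₂) (i₂ g) (q, y₂), y₁)
      rw [e1.1, e2.1]
      rfl
    · show A y₂ (cc N₁ (sec i₁ N₁ N₀) (sec_bij i₁ N₁ N₀ h₁) (i₁ g) (q, y₁)) =
        B y₁ (cc N₂ (sec i₂ N₂ N₀) (sec_bij i₂ N₂ N₀ h₂) (i₂ g) (q, y₂))
      rw [e1.2, e2.2]
      exact compat _ hn y₁ y₂
  apply Mon.ext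
  · exact Equiv.ext fun t => (key t).1
  · funext t
    exact (key t).2

theorem nu₁_mem (g : G₁) (h : (nu₁ i₁ i₂ N₀ N₁ N₂ h₁ A g).p = 1) : g ∈ N₁ := by
  have : Nonempty (Orb i₂ N₂) := ⟨DoubleCoset.mk i₂.range N₂ 1⟩
  have : Nonempty ((G₀ ⧸ N₀) × Orb i₁ N₁) := ⟨(QuotientGroup.mk 1, DoubleCoset.mk i₁.range N₁ 1)⟩
  exact mem_of_p N₁ (sec i₁ N₁ N₀) (sec_bij i₁ N₁ N₀ h₁) (ε₁ i₁ i₂ N₀ N₁ N₂) A g h

theorem nu₂_mem (g : G₂) (h : (nu₂ i₁ i₂ N₀ N₁ N₂ h₂ B g).p = 1) : g ∈ N₂ := by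
  have : Nonempty (Orb i₁ N₁) := ⟨DoubleCoset.mk i₁.range N₁ 1⟩
  have : Nonempty ((G₀ ⧸ N₀) × Orb i₂ N₂) := ⟨(QuotientGroup.mk 1, DoubleCoset.mk i₂.range N₂ 1)⟩
  exact mem_of_p N₂ (sec i₂ N₂ N₀) (sec_bij i₂ N₂ N₀ h₂) (ε₂ i₁ i₂ N₀ N₁ N₂) B g h

theorem nu₁_f (n : N₁) (q : G₀ ⧸ N₀) (y₁ : Orb i₁ N₁) (y₂ : Orb i₂ N₂) :
    (nu₁ i₁ i₂ N₀ N₁ N₂ h₁ A n).f (q, y₁, y₂) = A y₂ (cj N₁ (sec i₁ N₁ N₀ (q, y₁)) n) := by
  show A y₂ (cc N₁ (sec i₁ N₁ N₀) (sec_bij i₁ N₁ N₀ h₁) n (q, y₁)) = _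
  rw [(ac_mem N₁ (sec i₁ N₁ N₀) (sec_bij i₁ N₁ N₀ h₁) (n : G₁) n.2 (q, y₁)).2]
  rfl

theorem nu₂_f (n : N₂) (q : G₀ ⧸ N₀) (y₁ : Orb i₁ N₁) (y₂ : Orb i₂ N₂) :
    (nu₂ i₁ i₂ N₀ N₁ N₂ h₂ B n).f (q, y₁, y₂) = B y₁ (cj N₂ (sec i₂ N₂ N₀ (q, y₂)) n) := by
  show B y₁ (cc N₂ (sec i₂ N₂ N₀) (sec_bij i₂ N₂ N₀ h₂) n (q, y₂)) = _
  rw [(ac_mem N₂ (sec i₂ N₂ N₀) (sec_bij i₂ N₂ N₀ h₂) (n : G₂) n.2 (q, y₂)).2]
  rfl

theorem orb_fin {G₀ G : Type*} [Group G₀] [Group G] (i : G₀ →* G) (N : Subgroup G)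
    [hf : N.FiniteIndex] : Finite (Orb i N) := by
  have : Finite (G ⧸ N) := inferInstance
  refine Finite.of_surjective (fun q : G ⧸ N => (DoubleCoset.mk i.range N q.out : Orb i N)) ?_
  intro y
  refine ⟨QuotientGroup.mk y.out, ?_⟩
  obtain ⟨n, hn⟩ := QuotientGroup.mk_out_eq_mul N y.out
  show DoubleCoset.mk i.range N (QuotientGroup.mk y.out : G ⧸ N).out = y
  rw [hn]
  conv_rhs => rw [← DoubleCoset.out_eq' i.range N y]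
  rw [DoubleCoset.eq]
  exact ⟨1, i.range.one_mem, (n : G)⁻¹, N.inv_mem n.2, by group⟩

theorem quo_fin {G₀ G : Type*} [Group G₀] [Group G] (i : G₀ →* G) (N : Subgroup G)
    (N₀ : Subgroup G₀) (h : ∀ g, i g ∈ N ↔ g ∈ N₀) [hf : N.FiniteIndex] : Finite (G₀ ⧸ N₀) := by
  have h1 : N₀ = N.comap i := by
    ext g
    rw [Subgroup.mem_comap, h]
  have h2 : N₀.FiniteIndex := by
    rw [h1]
    exact ⟨by
      rw [Subgroup.index_comap]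
      exact fun h0 => hf.index_ne_zero (Subgroup.index_eq_zero_of_relIndex_eq_zero h0)⟩
  infer_instance

end two

end Pool.Agent.X260.VA
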