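import Pool.Agent.X260.VA.Ab
import Pool.Agent.X260.VA.Coord

/-!
# Normal free abelian subgroups adapted to an element
-/

set_option autoImplicit false

namespace Pool.Agent.X260.VA

theorem vec_smul_eq_zero {n : ℕ} {m : ℕ} (hm : 0 < m) (w : Fin n → ℤ) (h : m • w = 0) : w = 0 := by
  funext i
  have h1 : (m • w) i = 0 := by rw [h]; rfl
  rw [Pi.smul_apply, nsmul_eq_mul] at h1
  have h2 : (m : ℤ) ≠ 0 := by exact_mod_cast hm.ne'
  exact (mul_eq_zero.1 h1).resolve_left h2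

theorem mult_pow_eq_one {n : ℕ} {m : ℕ} (hm : 0 < m) (w : Multiplicative (Fin n → ℤ))
    (h : w ^ m = 1) : w = 1 := by
  have h1 : m • w.toAdd = 0 := h
  exact vec_smul_eq_zero hm _ h1

theorem tf_of_inj {N : Type*} [Group N] {n : ℕ} (e : N →* Multiplicative (Fin n → ℤ))
    (he : Function.Injective e) {m : ℕ} (hm : 0 < m) (x : N) (h : x ^ m = 1) : x = 1 := by
  apply he
  rw [map_one]
  refine mult_pow_eq_one hm _ ?_
  rw [← map_pow, h, map_one]

section c

variable {G : Type*} [Group G] (A : Subgroup G) (hc : ∀ x ∈ A, ∀ y ∈ A, x * y = y * x) {n K : ℕ}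
  (φ : A →* Multiplicative (Fin n → ℤ)) (hK : 0 < K) (hs : Function.Surjective φ)
  (hφ : ∀ a, φ a = 1 → a ^ K = 1)

/-- coordinates on the subgroup of powers -/
noncomputable def pe (j : ℕ) : pw A hc (K * j) →* Multiplicative (Fin n → ℤ) :=
  φ.comp (Subgroup.inclusion (pw_le A hc (K * j)))

include hK hφ in
theorem pe_inj {j : ℕ} (hj : 0 < j) : Function.Injective (pe A hc (K := K) φ j) := by
  rw [injective_iff_map_eq_one]
  rintro ⟨_, b, hb, rfl⟩ h
  have h1 : φ (⟨b, hb⟩ ^ (K * j)) = 1 := h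
  rw [map_pow] at h1
  have h2 := mult_pow_eq_one (Nat.mul_pos hK hj) _ h1
  have h3 := hφ _ h2
  have h4 : b ^ K = 1 := congrArg Subtype.val h3
  apply Subtype.ext
  show b ^ (K * j) = 1
  rw [pow_mul, h4, one_pow]

include hc hφ in
/-- elements of `A` with the same coordinates have the same `K`-th powers -/
theorem pow_eq (a b : A) (h : φ a = φ b) : a ^ K = b ^ K := by
  have h1 : (a * b⁻¹) ^ K = 1 := hφ _ (by rw [map_mul, map_inv, h, mul_inv_cancel])
  have hcm : Commute a b⁻¹ := Subtype.ext (hc a a.2 _ (A.inv_mem b.2))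
  rw [hcm.mul_pow, inv_pow, mul_inv_eq_one] at h1
  exact h1

include hK hs hφ in
theorem cont [hA : A.Normal] [hf : A.FiniteIndex] [Group.FG G] (c : G) (hcm : c ∈ pw A hc K)
    (hc1 : c ≠ 1) :
    ∃ (N : Subgroup G) (_ : N.Normal) (_ : N.FiniteIndex) (_ : c ∈ N)
      (e : N →* Multiplicative (Fin n → ℤ)), Function.Injective e ∧
      ∀ g ∈ N, ∀ m : ℕ, 0 < m → ∀ l : ℤ, g ^ m = c ^ l → ∃ j : ℤ, g = c ^ j := by
  obtain ⟨a, ha, rfl⟩ := hcm
  have hu : (φ ⟨a, ha⟩).toAdd ≠ 0 := by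
    intro h0
    have h1 := hφ ⟨a, ha⟩ h0
    exact hc1 (congrArg Subtype.val h1)
  obtain ⟨k, v, al, hk, hv, hal⟩ := prim _ hu
  obtain ⟨a', ha'⟩ := hs (Multiplicative.ofAdd v)
  have h1 : (⟨a, ha⟩ : A) ^ K = (a' ^ k) ^ K := by
    refine pow_eq A hc φ hφ _ _ ?_
    rw [map_pow, ha']
    exact hv
  have h2 : a ^ K = (a' : G) ^ (K * k) := by
    have := congrArg Subtype.val h1
    rw [mul_comm K k, pow_mul]
    exact this
  refine ⟨pw A hc (K * k), pw_normal A hc _, pw_fi A hc _ (Nat.mul_pos hK hk), ?_,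
    pe A hc φ k, pe_inj A hc φ hK hφ hk, ?_⟩
  · exact ⟨a', a'.2, h2⟩
  · rintro _ ⟨b, hb, rfl⟩ m hm l hg
    rw [h2] at hg ⊢
    have h3 : ((⟨b, hb⟩ : A) ^ (K * k)) ^ m = (a' ^ (K * k)) ^ l := Subtype.ext hg
    have h4 : (φ ⟨b, hb⟩ ^ (K * k)) ^ m = ((Multiplicative.ofAdd v) ^ (K * k)) ^ l := by
      rw [← ha', ← map_pow, ← map_pow, ← map_pow, ← map_zpow, h3]
    have h5 : m • ((K * k) • (φ ⟨b, hb⟩).toAdd) = l • ((K * k) • v) := h4
    have h6 : (K * k) • ((m : ℤ) • (φ ⟨b, hb⟩).toAdd - l • v) = 0 := by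
      rw [smul_sub, smul_comm _ l v, ← h5, natCast_zsmul, smul_comm (K * k) m, sub_self]
    have h7 := vec_smul_eq_zero (Nat.mul_pos hK hk) _ h6
    obtain ⟨j, hj⟩ := prim_div v al _ hal m hm l (sub_eq_zero.1 h7)
    refine ⟨j, ?_⟩
    have h8 : (⟨b, hb⟩ : A) ^ K = (a' ^ j) ^ K := by
      refine pow_eq A hc φ hφ _ _ ?_
      rw [map_zpow, ha']
      exact hj
    have h9 : b ^ K = ((a' : G) ^ j) ^ K := congrArg Subtype.val h8
    rw [pow_mul, h9, ← pow_mul, ← zpow_natCast, ← zpow_mul, mul_comm j, zpow_mul, zpow_natCast]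

end c

/-- the first tensor map -/
def ten₁ {n m : ℕ} (w : Fin m → ℤ) :
    Multiplicative (Fin n → ℤ) →* Multiplicative (Fin n × Fin m → ℤ) :=
  AddMonoidHom.toMultiplicative
    { toFun := fun v ab => v ab.1 * w ab.2
      map_zero' := by funext; simp
      map_add' := fun x y => by funext; simp [add_mul] }

/-- the second tensor map -/
def ten₂ {n m : ℕ} (w : Fin n → ℤ) :
    Multiplicative (Fin m → ℤ) →* Multiplicative (Fin n × Fin m → ℤ) :=
  AddMonoidHom.toMultiplicative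
    { toFun := fun v ab => w ab.1 * v ab.2
      map_zero' := by funext; simp
      map_add' := fun x y => by funext; simp [mul_add] }

theorem ten₁_apply {n m : ℕ} (w : Fin m → ℤ) (v : Multiplicative (Fin n → ℤ)) (a : Fin n)
    (b : Fin m) : (ten₁ w v).toAdd (a, b) = v.toAdd a * w b := rfl

theorem ten₂_apply {n m : ℕ} (w : Fin n → ℤ) (v : Multiplicative (Fin m → ℤ)) (a : Fin n)
    (b : Fin m) : (ten₂ w v).toAdd (a, b) = w a * v.toAdd b := rfl

theorem ne_coord {n : ℕ} (w : Multiplicative (Fin n → ℤ)) (hw : w ≠ 1) : ∃ a, w.toAdd a ≠ 0 := by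
  by_contra h
  push Not at h
  exact hw (by
    have : w.toAdd = 0 := funext h
    exact this)

end Pool.Agent.X260.VA
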