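import Mathlib

/-!
# Powers in finitely generated virtually abelian groups
-/

set_option autoImplicit false

namespace Pool.Agent.X260.VA

section pw

variable {G : Type*} [Group G]

/-- the subgroup of `K`-th powers of a commutative subgroup -/
def pw (A : Subgroup G) (hc : ∀ x ∈ A, ∀ y ∈ A, x * y = y * x) (K : ℕ) : Subgroup G where
  carrier := {x | ∃ a ∈ A, x = a ^ K}
  one_mem' := ⟨1, A.one_mem, by simp⟩
  mul_mem' := by
    rintro _ _ ⟨a, ha, rfl⟩ ⟨b, hb, rfl⟩
    exact ⟨a * b, A.mul_mem ha hb, ((show Commute a b from hc a ha b hb).mul_pow K).symm⟩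
  inv_mem' := by
    rintro _ ⟨a, ha, rfl⟩
    exact ⟨a⁻¹, A.inv_mem ha, by simp⟩

variable (A : Subgroup G) (hc : ∀ x ∈ A, ∀ y ∈ A, x * y = y * x)

theorem pw_le (K : ℕ) : pw A hc K ≤ A := by
  rintro _ ⟨a, ha, rfl⟩
  exact A.pow_mem ha K

theorem pw_normal [hA : A.Normal] (K : ℕ) : (pw A hc K).Normal := by
  constructor
  rintro _ ⟨a, ha, rfl⟩ g
  exact ⟨g * a * g⁻¹, hA.conj_mem a ha g, by simp⟩

theorem pw_fi [Group.FG G] [hf : A.FiniteIndex] (K : ℕ) (hK : 0 < K) :
    (pw A hc K).FiniteIndex := by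
  have h1 : Group.FG A := inferInstance
  letI : CommGroup A := { (inferInstance : Group A) with
    mul_comm := fun x y => Subtype.ext (hc x x.2 y y.2) }
  have h2 : Finite (A ⧸ (pw A hc K).subgroupOf A) := by
    have h3 : Group.FG (A ⧸ (pw A hc K).subgroupOf A) := inferInstance
    refine CommGroup.finite_of_fg_isMulTorsion _ ?_
    intro q
    obtain ⟨a, rfl⟩ := QuotientGroup.mk_surjective q
    rw [isOfFinOrder_iff_pow_eq_one]
    refine ⟨K, hK, ?_⟩
    rw [← QuotientGroup.mk_pow, QuotientGroup.eq_one_iff, Subgroup.mem_subgroupOf]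
    exact ⟨a, a.2, rfl⟩
  have h3 : ((pw A hc K).subgroupOf A).FiniteIndex := Subgroup.finiteIndex_of_finite_quotient
  have h4 : (pw A hc K).relIndex A ≠ 0 := h3.index_ne_zero
  constructor
  rw [← Subgroup.relIndex_mul_index (pw_le A hc K)]
  exact mul_ne_zero h4 hf.index_ne_zero

end pw

/-- the coordinates of a finitely generated virtually abelian group -/
theorem va_data {G : Type*} [Group G] [Group.FG G]
    (h : ∃ A : Subgroup G, A.FiniteIndex ∧ ∀ x ∈ A, ∀ y ∈ A, x * y = y * x) :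
    ∃ (A : Subgroup G) (_ : A.Normal) (_ : A.FiniteIndex)
      (_ : ∀ x ∈ A, ∀ y ∈ A, x * y = y * x) (n K : ℕ)
      (φ : A →* Multiplicative (Fin n → ℤ)), 0 < K ∧ Function.Surjective φ ∧
      ∀ a, φ a = 1 → a ^ K = 1 := by
  obtain ⟨A', hA', hc'⟩ := h
  have hc : ∀ x ∈ A'.normalCore, ∀ y ∈ A'.normalCore, x * y = y * x :=
    fun x hx y hy => hc' x (A'.normalCore_le hx) y (A'.normalCore_le hy)
  have hfi : A'.normalCore.FiniteIndex := inferInstance
  have hnn : A'.normalCore.Normal := inferInstance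
  generalize A'.normalCore = A at hc hfi hnn
  letI : CommGroup A := { (inferInstance : Group A) with
    mul_comm := fun x y => Subtype.ext (hc x x.2 y y.2) }
  have h1 : Group.FG A := inferInstance
  have h2 : AddGroup.FG (Additive A) := inferInstance
  obtain ⟨n, ι, hι, p, hp, e, ⟨f⟩⟩ := AddCommGroup.equiv_free_prod_directSum_zmod (Additive A)
  have h3 : ∀ i : ι, NeZero (p i ^ e i) := fun i => ⟨pow_ne_zero _ (hp i).ne_zero⟩
  have hfin : Finite (DirectSum ι fun i => ZMod (p i ^ e i)) :=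
    Finite.of_equiv _ DFinsupp.equivFunOnFintype.symm
  let L := Finsupp.linearEquivFunOnFinite ℤ ℤ (Fin n)
  refine ⟨A, hnn, hfi, hc, n, Nat.card (DirectSum ι fun i => ZMod (p i ^ e i)),
    AddMonoidHom.toMultiplicativeRight ((L.toAddEquiv.toAddMonoidHom.comp
      (AddMonoidHom.fst _ _)).comp f.toAddMonoidHom), Nat.card_pos, ?_, ?_⟩
  · intro v
    refine ⟨(f.symm (L.symm v.toAdd, 0)).toMul, ?_⟩
    show Multiplicative.ofAdd (L ((f (f.symm (L.symm v.toAdd, 0))).1)) = v
    rw [AddEquiv.apply_symm_apply]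
    simp
  · intro a ha
    have h4 : L ((f (Additive.ofMul a)).1) = 0 := ha
    have h5 : (f (Additive.ofMul a)).1 = 0 := by simpa using h4
    have h6 : f (Nat.card (DirectSum ι fun i => ZMod (p i ^ e i)) • Additive.ofMul a) = 0 := by
      rw [map_nsmul]
      apply Prod.ext
      · rw [Prod.smul_fst, h5, smul_zero]
        rfl
      · rw [Prod.smul_snd]
        exact card_nsmul_eq_zero'
    have h7 := (AddEquiv.map_eq_zero_iff f).1 h6
    exact h7

/-- primitive vectors -/
theorem prim {n : ℕ} (u : Fin n → ℤ) (hu : u ≠ 0) :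
    ∃ (k : ℕ) (v a : Fin n → ℤ), 0 < k ∧ u = k • v ∧ ∑ i, a i * v i = 1 := by
  set I := Ideal.span (Set.range u) with hI
  obtain ⟨d, hd⟩ : ∃ d : ℤ, I = Ideal.span {d} := ⟨_, (Ideal.span_singleton_generator I).symm⟩
  have hd' : I = Ideal.span {(d.natAbs : ℤ)} := by
    rw [hd, Int.span_natAbs]
  have hdv : ∀ i, (d.natAbs : ℤ) ∣ u i := by
    intro i
    rw [← Ideal.mem_span_singleton, ← hd']
    exact Ideal.subset_span ⟨i, rfl⟩
  have hk : d.natAbs ≠ 0 := by
    intro h0
    apply hu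
    funext i
    have := hdv i
    rw [h0] at this
    simpa using this
  choose v hv using hdv
  have hm : (d.natAbs : ℤ) ∈ I := by
    rw [hd']
    exact Ideal.mem_span_singleton_self _
  rw [hI, Ideal.mem_span_range_iff_exists_fun] at hm
  obtain ⟨a, ha⟩ := hm
  refine ⟨d.natAbs, v, a, Nat.pos_of_ne_zero hk, ?_, ?_⟩
  · funext i
    rw [hv i]
    simp
  · have h1 : (d.natAbs : ℤ) * ∑ i, a i * v i = (d.natAbs : ℤ) * 1 := by
      rw [Finset.mul_sum, mul_one]
      conv_rhs => rw [← ha]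
      refine Finset.sum_congr rfl fun i _ => ?_
      conv_rhs => rw [hv i]
      ring
    exact mul_left_cancel₀ (by exact_mod_cast hk) h1

theorem prim_div {n : ℕ} (v a w : Fin n → ℤ) (hv : ∑ i, a i * v i = 1) (m : ℕ) (hm : 0 < m)
    (l : ℤ) (h : (m : ℤ) • w = l • v) : ∃ j : ℤ, w = j • v := by
  have hl : l = m * ∑ i, a i * w i := by
    have h1 : ∑ i, a i * ((m : ℤ) • w) i = ∑ i, a i * (l • v) i := by rw [h]
    have h2 : ∑ i, a i * (l • v) i = l := by
      have : ∀ i, a i * (l • v) i = l * (a i * v i) := fun i => by simp; ring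
      rw [Finset.sum_congr rfl fun i _ => this i, ← Finset.mul_sum, hv, mul_one]
    have h3 : ∑ i, a i * ((m : ℤ) • w) i = m * ∑ i, a i * w i := by
      rw [Finset.mul_sum]
      refine Finset.sum_congr rfl fun i _ => ?_
      simp
      ring
    rw [← h2, ← h1, h3]
  refine ⟨∑ i, a i * w i, ?_⟩
  have hm' : (m : ℤ) ≠ 0 := by exact_mod_cast hm.ne'
  have h4 : (m : ℤ) • w = (m : ℤ) • ((∑ i, a i * w i) • v) := by
    rw [h, hl, mul_smul]
  exact smul_right_injective _ hm' h4

end Pool.Agent.X260.VA
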