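import Mathlib

/-!
# Monomial permutations and induced homomorphisms
-/

set_option autoImplicit false

namespace Pool.Agent.X260.VA

/-- monomial permutations of `T × M` -/
@[ext] structure Mon (T M : Type*) where
  /-- the permutation -/
  p : Equiv.Perm T
  /-- the factors -/
  f : T → M

namespace Mon

variable {T M : Type*} [CommGroup M]

instance : Mul (Mon T M) := ⟨fun a b => ⟨a.p * b.p, fun t => a.f (b.p t) * b.f t⟩⟩
instance : One (Mon T M) := ⟨⟨1, fun _ => 1⟩⟩
instance : Inv (Mon T M) := ⟨fun a => ⟨a.p⁻¹, fun t => (a.f (a.p⁻¹ t))⁻¹⟩⟩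

@[simp] theorem mul_p (a b : Mon T M) : (a * b).p = a.p * b.p := rfl
@[simp] theorem mul_f (a b : Mon T M) (t : T) : (a * b).f t = a.f (b.p t) * b.f t := rfl
@[simp] theorem one_p : (1 : Mon T M).p = 1 := rfl
@[simp] theorem one_f (t : T) : (1 : Mon T M).f t = 1 := rfl
@[simp] theorem inv_p (a : Mon T M) : (a⁻¹).p = a.p⁻¹ := rfl
@[simp] theorem inv_f (a : Mon T M) (t : T) : (a⁻¹).f t = (a.f (a.p⁻¹ t))⁻¹ := rfl

instance : Group (Mon T M) := Group.ofLeftAxioms
  (by
    intro a b c
    apply Mon.ext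
    · simp [mul_assoc]
    · funext t
      simp [mul_assoc])
  (by
    intro a
    apply Mon.ext
    · simp
    · funext t
      simp)
  (by
    intro a
    apply Mon.ext
    · simp
    · funext t
      simp)

/-- the underlying permutation -/
def perm : Mon T M →* Equiv.Perm T where
  toFun := Mon.p
  map_one' := rfl
  map_mul' _ _ := rfl

@[simp] theorem perm_apply (a : Mon T M) : perm a = a.p := rfl

theorem ker_comm (a b : Mon T M) (ha : a ∈ (perm (T := T) (M := M)).ker)
    (hb : b ∈ (perm (T := T) (M := M)).ker) : a * b = b * a := by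
  have ha : a.p = 1 := ha
  have hb : b.p = 1 := hb
  apply Mon.ext
  · simp [ha, hb]
  · funext t
    simp [ha, hb, mul_comm]

theorem ker_fi [Finite T] : ((perm (T := T) (M := M)).ker).FiniteIndex := by
  have : Finite (Equiv.Perm T) := inferInstance
  infer_instance

end Mon

section ind

variable {G X P T M : Type*} [Group G] [CommGroup M] (N : Subgroup G) (s : X → G)
  (hs : Function.Bijective (fun p : X × N => s p.1 * (p.2 : G))) (ε : T ≃ X × P) (A : P → N →* M)

/-- coordinates -/
noncomputable def co (hs : Function.Bijective (fun p : X × N => s p.1 * (p.2 : G))) : X × N ≃ G :=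
  Equiv.ofBijective _ hs

/-- the action -/
noncomputable def ac (g : G) (x : X) : X := ((co N s hs).symm (g * s x)).1

/-- the cocycle -/
noncomputable def cc (g : G) (x : X) : N := ((co N s hs).symm (g * s x)).2

theorem ac_cc (g : G) (x : X) : g * s x = s (ac N s hs g x) * (cc N s hs g x : G) := by
  have h := (co N s hs).apply_symm_apply (g * s x)
  exact h.symm

theorem ac_cc_uniq (g : G) (x x' : X) (n : N) (h : g * s x = s x' * (n : G)) :
    ac N s hs g x = x' ∧ cc N s hs g x = n := by
  have h1 : (co N s hs).symm (g * s x) = (x', n) := by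
    rw [Equiv.symm_apply_eq]
    exact h
  exact ⟨by rw [ac, h1], by rw [cc, h1]⟩

theorem ac_one (x : X) : ac N s hs 1 x = x := (ac_cc_uniq N s hs 1 x x 1 (by simp)).1
theorem cc_one (x : X) : cc N s hs 1 x = 1 := (ac_cc_uniq N s hs 1 x x 1 (by simp)).2

theorem mul_uniq (g h : G) (x : X) :
    ac N s hs (g * h) x = ac N s hs g (ac N s hs h x) ∧
      cc N s hs (g * h) x = cc N s hs g (ac N s hs h x) * cc N s hs h x := by
  refine ac_cc_uniq N s hs (g * h) x _ _ ?_
  rw [mul_assoc, ac_cc N s hs h x, ← mul_assoc, ac_cc N s hs g, Subgroup.coe_mul, mul_assoc]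

/-- the permutation of `X` -/
noncomputable def acPerm (g : G) : Equiv.Perm X where
  toFun := ac N s hs g
  invFun := ac N s hs g⁻¹
  left_inv x := by rw [← (mul_uniq N s hs g⁻¹ g x).1, inv_mul_cancel, ac_one]
  right_inv x := by rw [← (mul_uniq N s hs g g⁻¹ x).1, mul_inv_cancel, ac_one]

/-- the induced monomial representation -/
noncomputable def ind : G →* Mon T M where
  toFun g :=
    { p := ε.trans (((acPerm N s hs g).prodCongr (Equiv.refl P)).trans ε.symm)
      f := fun t => A (ε t).2 (cc N s hs g (ε t).1) }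
  map_one' := by
    apply Mon.ext
    · ext t
      show ε.symm (ac N s hs 1 (ε t).1, (ε t).2) = t
      rw [ac_one]
      exact ε.symm_apply_apply t
    · funext t
      show A (ε t).2 (cc N s hs 1 (ε t).1) = 1
      rw [cc_one, map_one]
  map_mul' g h := by
    apply Mon.ext
    · ext t
      show ε.symm (ac N s hs (g * h) (ε t).1, (ε t).2) =
        ε.symm (ac N s hs g (ε (ε.symm (ac N s hs h (ε t).1, (ε t).2))).1,
          (ε (ε.symm (ac N s hs h (ε t).1, (ε t).2))).2)
      rw [Equiv.apply_symm_apply, (mul_uniq N s hs g h _).1]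
    · funext t
      show A (ε t).2 (cc N s hs (g * h) (ε t).1) =
        A (ε (ε.symm (ac N s hs h (ε t).1, (ε t).2))).2
          (cc N s hs g (ε (ε.symm (ac N s hs h (ε t).1, (ε t).2))).1) *
          A (ε t).2 (cc N s hs h (ε t).1)
      rw [Equiv.apply_symm_apply, (mul_uniq N s hs g h _).2, map_mul]

theorem ind_p (g : G) (t : T) :
    (ind N s hs ε A g).p t = ε.symm (ac N s hs g (ε t).1, (ε t).2) := rfl

theorem ind_f (g : G) (t : T) :
    (ind N s hs ε A g).f t = A (ε t).2 (cc N s hs g (ε t).1) := rfl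

theorem mem_of_p [hN : N.Normal] [Nonempty P] [Nonempty X] (g : G)
    (h : (ind N s hs ε A g).p = 1) : g ∈ N := by
  obtain ⟨x⟩ := ‹Nonempty X›
  obtain ⟨p⟩ := ‹Nonempty P›
  have h1 : ε.symm (ac N s hs g (ε (ε.symm (x, p))).1, (ε (ε.symm (x, p))).2) = ε.symm (x, p) := by
    rw [← ind_p N s hs ε A, h]
    rfl
  rw [Equiv.apply_symm_apply] at h1
  have h2 : ac N s hs g x = x := (Prod.mk.inj (ε.symm.injective h1)).1
  have h3 := ac_cc N s hs g x
  rw [h2] at h3
  have h4 : g = s x * (cc N s hs g x : G) * (s x)⁻¹ := by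
    rw [← h3]
    group
  rw [h4]
  exact hN.conj_mem _ (cc N s hs g x).2 _

theorem ac_mem [hN : N.Normal] (n : G) (hn : n ∈ N) (x : X) :
    ac N s hs n x = x ∧
      cc N s hs n x = ⟨(s x)⁻¹ * n * s x, by
        have := hN.conj_mem _ hn (s x)⁻¹
        rwa [inv_inv] at this⟩ := by
  refine ac_cc_uniq N s hs n x x _ ?_
  show n * s x = s x * ((s x)⁻¹ * n * s x)
  group

end ind

end Pool.Agent.X260.VA
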